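import Pool.Agent.MP_0c16b3_nt.L.Rel
import Pool.Agent.MP_0c16b3_nt.L.IntL
import Pool.Agent.MP_0c16b3_nt.L.Sieg
import Pool.Agent.MP_0c16b3_nt.L.Nz
import Pool.Agent.MP_0c16b3_nt.L.Hv
import Pool.Agent.MP_0c16b3_nt.N.Tk
import Pool.Agent.MP_0c16b3_nt.N.Erd
import Pool.Agent.MP_0c16b3_nt.N.Lin2
import Pool.Agent.MP_0c16b3_nt.N.Prim2
import Pool.Agent.MP_0c16b3_nt.N.Nonv2
import Pool.Agent.MP_0c16b3_nt.N.Sel
import Pool.Agent.MP_0c16b3_nt.N.Avg2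
import Pool.Agent.MP_0c16b3_nt.N.Cert
import Pool.Agent.MP_0c16b3_nt.N.Fin

/-! For fixed large `K` and every large prime `p`, the Lerch numerator over the residue system
`[-k, p - 1 - k]` without `0` lies in a given class modulo `p ^ 3` for at most `ε K` of the
shifts `k < K`. -/

namespace Pool.Agent.Results.MP_0c16b3_nt.AlmostAllShifts

theorem result : ∀ ε : ℝ, 0 < ε → ∃ K₀ : ℕ, ∀ K : ℕ, K₀ ≤ K → ∃ p₀ : ℕ, ∀ p : ℕ, p.Prime →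
    p₀ ≤ p → ∀ r : ℤ,
    (((Finset.range K).filter (fun k : ℕ =>
      (∑ a ∈ (Finset.Icc (-(k : ℤ)) ((p : ℤ) - 1 - k)).erase 0, a ^ (p - 1)) - p -
        ∏ a ∈ (Finset.Icc (-(k : ℤ)) ((p : ℤ) - 1 - k)).erase 0, a ≡ r
          [ZMOD (p : ℤ) ^ 3])).card : ℝ) ≤ ε * K := by
  open Pool.Agent.MP_0c16b3_nt.L Pool.Agent.MP_0c16b3_nt.N in
  exact final2 (cert2 (erd tk big) lin2 rel intS sieg (nonv2 nz hv prim2) sel avg2)

end Pool.Agent.Results.MP_0c16b3_nt.AlmostAllShifts
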