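import Pool.Agent.MP_0c16b3_nt.W.Rec
import Pool.Agent.MP_0c16b3_nt.W.Poly
import Pool.Agent.MP_0c16b3_nt.W.Elim
import Pool.Agent.MP_0c16b3_nt.W.Mult
import Pool.Agent.MP_0c16b3_nt.W.Dim
import Pool.Agent.MP_0c16b3_nt.W.Filt
import Pool.Agent.MP_0c16b3_nt.W.Evl
import Pool.Agent.MP_0c16b3_nt.W.Step
import Pool.Agent.MP_0c16b3_nt.W.Loc
import Pool.Agent.MP_0c16b3_nt.W.Der
import Pool.Agent.MP_0c16b3_nt.W.Ind
import Pool.Agent.MP_0c16b3_nt.W.Fam
import Pool.Agent.MP_0c16b3_nt.W.Count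
import Pool.Agent.MP_0c16b3_nt.W.Pat
import Pool.Agent.MP_0c16b3_nt.W.Main

/-! For a large prime `p`, the Lerch numerator taken over the residue system
`[-k, p - 1 - k]` without `0` lies in a given class modulo `p ^ 3` for only `o(p)` of the
`p` shifts `k`. -/

namespace Pool.Agent.Results.MP_0c16b3_nt.ShiftedWindows

theorem result : ∀ ε : ℝ, 0 < ε → ∃ p₀ : ℕ, ∀ p : ℕ, p.Prime → p₀ ≤ p → ∀ r : ℤ,
    (((Finset.range p).filter (fun k : ℕ =>
      (∑ a ∈ (Finset.Icc (-(k : ℤ)) ((p : ℤ) - 1 - k)).erase 0, a ^ (p - 1)) - p -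
        ∏ a ∈ (Finset.Icc (-(k : ℤ)) ((p : ℤ) - 1 - k)).erase 0, a ≡ r
          [ZMOD (p : ℤ) ^ 3])).card : ℝ) ≤ ε * p := by
  open Pool.Agent.MP_0c16b3_nt.W in
  exact main count (pat recS poly elim (step mult dim filt evl) (fam (ind wro loc base der)))

end Pool.Agent.Results.MP_0c16b3_nt.ShiftedWindows
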